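import Pool.Agent.W626.AH.Stm

/-!
# The retraction onto the injective hull (Dress)
-/

set_option autoImplicit false

namespace Pool.Agent.W356.AHRet

open Pool.Agent.W626.AH

variable {X : Type}

/-- The functions above the metric. -/
def DD (d : X → X → ℝ) (f : X → ℝ) : Prop := ∀ x y, d x y ≤ f x + f y

/-- The conjugate function. -/
noncomputable def st (d : X → X → ℝ) (f : X → ℝ) (x : X) : ℝ := ⨆ y, (d x y - f y)

/-- One step. -/
noncomputable def q (d : X → X → ℝ) (f : X → ℝ) (x : X) : ℝ := (f x + st d f x) / 2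

theorem bdd {d : X → X → ℝ} {f : X → ℝ} (hf : DD d f) (x : X) :
    BddAbove (Set.range fun y => d x y - f y) := by
  refine ⟨f x, ?_⟩
  rintro _ ⟨y, rfl⟩
  have := hf x y
  simp only
  linarith

theorem st_le [Nonempty X] {d : X → X → ℝ} {f : X → ℝ} (hf : DD d f) (x : X) :
    st d f x ≤ f x := by
  refine ciSup_le fun y => ?_
  have := hf x y
  linarith

theorem le_st {d : X → X → ℝ} {f : X → ℝ} (hf : DD d f) (x y : X) :
    d x y - f y ≤ st d f x := le_ciSup (bdd hf x) y

theorem st_mono [Nonempty X] {d : X → X → ℝ} {f g : X → ℝ} (hf : DD d f) (c : ℝ)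
    (h : ∀ x, f x ≤ g x + c) (x : X) : st d g x ≤ st d f x + c := by
  refine ciSup_le fun y => ?_
  have h1 := le_st hf x y
  have h2 := h y
  linarith

theorem q_le [Nonempty X] {d : X → X → ℝ} {f : X → ℝ} (hf : DD d f) (x : X) : q d f x ≤ f x := by
  have := st_le hf x
  unfold q
  linarith

theorem q_DD {d : X → X → ℝ} (hd : PD d) {f : X → ℝ} (hf : DD d f) : DD d (q d f) := by
  intro x y
  have h1 := le_st hf x y
  have h2 := le_st hf y x
  rw [hd.symm y x] at h2
  unfold q
  linarith

theorem q_lip [Nonempty X] {d : X → X → ℝ} {f g : X → ℝ} (hf : DD d f) (hg : DD d g) (c : ℝ)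
    (h : ∀ x, |f x - g x| ≤ c) (x : X) : |q d f x - q d g x| ≤ c := by
  have h1 : ∀ x, f x ≤ g x + c := fun x => by
    have := (abs_le.1 (h x)).2
    linarith
  have h2 : ∀ x, g x ≤ f x + c := fun x => by
    have := (abs_le.1 (h x)).1
    linarith
  have h3 := st_mono hf c h1 x
  have h4 := st_mono hg c h2 x
  have h5 := h1 x
  have h6 := h2 x
  unfold q
  rw [abs_le]
  constructor <;> linarith

theorem q_gap [Nonempty X] {d : X → X → ℝ} (hd : PD d) {f : X → ℝ} (hf : DD d f) (x : X) :
    q d f x - st d (q d f) x ≤ (f x - st d f x) / 2 := by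
  have h := st_mono (q_DD hd hf) 0 (fun x => by have := q_le hf x; linarith) x
  have e : q d f x = (f x + st d f x) / 2 := rfl
  rw [e]
  linarith

theorem it_DD {d : X → X → ℝ} (hd : PD d) {f : X → ℝ} (hf : DD d f) (n : ℕ) :
    DD d ((q d)^[n] f) := by
  induction n with
  | zero => exact hf
  | succ n ih =>
    rw [Function.iterate_succ_apply']
    exact q_DD hd ih

theorem it_anti [Nonempty X] {d : X → X → ℝ} (hd : PD d) {f : X → ℝ} (hf : DD d f) (x : X) :
    Antitone fun n => (q d)^[n] f x := by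
  refine antitone_nat_of_succ_le fun n => ?_
  rw [Function.iterate_succ_apply']
  exact q_le (it_DD hd hf n) x

theorem it_gap [Nonempty X] {d : X → X → ℝ} (hd : PD d) {f : X → ℝ} (hf : DD d f) (n : ℕ)
    (x : X) : (q d)^[n] f x - st d ((q d)^[n] f) x ≤ (1 / 2) ^ n * (f x - st d f x) := by
  induction n with
  | zero => simp
  | succ n ih =>
    rw [Function.iterate_succ_apply']
    refine (q_gap hd (it_DD hd hf n) x).trans ?_
    rw [pow_succ]
    linarith

theorem DD_nonneg {d : X → X → ℝ} (hd : PD d) {f : X → ℝ} (hf : DD d f) (x : X) : 0 ≤ f x := by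
  have := hf x x
  rw [hd.self] at this
  linarith

/-- The retraction. -/
noncomputable def p (d : X → X → ℝ) (f : X → ℝ) (x : X) : ℝ := ⨅ n : ℕ, (q d)^[n] f x

theorem p_le {d : X → X → ℝ} (hd : PD d) {f : X → ℝ} (hf : DD d f) (n : ℕ) (x : X) :
    p d f x ≤ (q d)^[n] f x := by
  refine ciInf_le ⟨0, ?_⟩ n
  rintro _ ⟨m, rfl⟩
  exact DD_nonneg hd (it_DD hd hf m) x

theorem p_DD [Nonempty X] {d : X → X → ℝ} (hd : PD d) {f : X → ℝ} (hf : DD d f) :
    DD d (p d f) := by
  intro x y
  have h1 : ∀ m, d x y - (q d)^[m] f y ≤ p d f x := by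
    intro m
    refine le_ciInf fun n => ?_
    have h2 := it_DD hd hf (max n m) x y
    have h3 := it_anti hd hf x (le_max_left n m)
    have h4 := it_anti hd hf y (le_max_right n m)
    simp only at h3 h4
    linarith
  have h5 : d x y - p d f x ≤ p d f y := by
    refine le_ciInf fun m => ?_
    have := h1 m
    linarith
  linarith

theorem p_ext [Nonempty X] {d : X → X → ℝ} (hd : PD d) {f : X → ℝ} (hf : DD d f) (x : X)
    (ε : ℝ) (hε : 0 < ε) : ∃ y, p d f x + p d f y < d x y + ε := by
  have hg0 : 0 ≤ f x - st d f x := by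
    have := st_le hf x
    linarith
  obtain ⟨n, hn⟩ : ∃ n : ℕ, (1 / 2 : ℝ) ^ n * (f x - st d f x) < ε / 2 := by
    obtain ⟨n, hn⟩ := exists_pow_lt_of_lt_one (show 0 < ε / 2 / (f x - st d f x + 1) by positivity)
      (show (1 / 2 : ℝ) < 1 by norm_num)
    refine ⟨n, ?_⟩
    rw [lt_div_iff₀ (by positivity)] at hn
    have h1 : (0 : ℝ) < (1 / 2) ^ n := by positivity
    nlinarith
  have h1 := it_gap hd hf n x
  have h2 : st d ((q d)^[n] f) x - ε / 2 < st d ((q d)^[n] f) x := by linarith
  obtain ⟨y, hy⟩ := exists_lt_of_lt_ciSup h2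
  refine ⟨y, ?_⟩
  have h3 := p_le hd hf n x
  have h4 := p_le hd hf n y
  linarith

theorem st_eq [Nonempty X] {d : X → X → ℝ} (f : Hull d) : st d f.1 = f.1 := by
  funext x
  refine le_antisymm (st_le f.2.1 x) ?_
  refine le_of_forall_pos_le_add fun ε hε => ?_
  obtain ⟨y, hy⟩ := f.2.2 x ε hε
  have := le_st f.2.1 x y
  linarith

theorem p_hull [Nonempty X] {d : X → X → ℝ} (f : Hull d) : p d f.1 = f.1 := by
  have h1 : q d f.1 = f.1 := by
    funext x
    unfold q
    rw [st_eq f]
    ring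
  have h2 : ∀ n : ℕ, (q d)^[n] f.1 = f.1 := by
    intro n
    induction n with
    | zero => rfl
    | succ n ih => rw [Function.iterate_succ_apply', ih, h1]
  funext x
  unfold p
  simp only [h2]
  exact ciInf_const

theorem it_lip [Nonempty X] {d : X → X → ℝ} (hd : PD d) {f g : X → ℝ} (hf : DD d f)
    (hg : DD d g) (c : ℝ) (h : ∀ x, |f x - g x| ≤ c) (n : ℕ) (x : X) :
    |(q d)^[n] f x - (q d)^[n] g x| ≤ c := by
  induction n generalizing x with
  | zero => exact h x
  | succ n ih =>
    rw [Function.iterate_succ_apply', Function.iterate_succ_apply']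
    exact q_lip (it_DD hd hf n) (it_DD hd hg n) c ih x

theorem p_lip [Nonempty X] {d : X → X → ℝ} (hd : PD d) {f g : X → ℝ} (hf : DD d f)
    (hg : DD d g) (c : ℝ) (h : ∀ x, |f x - g x| ≤ c) (x : X) : |p d f x - p d g x| ≤ c := by
  have h1 : p d f x - c ≤ p d g x := by
    refine le_ciInf fun n => ?_
    have h2 := p_le hd hf n x
    have h3 := (abs_le.1 (it_lip hd hf hg c h n x)).2
    linarith
  have h4 : p d g x - c ≤ p d f x := by
    refine le_ciInf fun n => ?_
    have h2 := p_le hd hg n x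
    have h3 := (abs_le.1 (it_lip hd hf hg c h n x)).1
    linarith
  rw [abs_le]
  constructor <;> linarith

theorem main : Pool.Agent.W626.AH.S_ret := by
  intro X _ d hd
  refine ⟨p d, fun f hf => ⟨p_DD hd hf, fun x ε hε => p_ext hd hf x ε hε⟩, fun f => p_hull f,
    fun f g c hf hg h x => p_lip hd hf hg c h x⟩

end Pool.Agent.W356.AHRet
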